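import Mathlib
import Pool.Agent.Helper867.PF.Nilp
import Pool.Agent.Helper867.PF.Roots

set_option autoImplicit false

/-!
A finitely generated parafree group `P` with a normal subgroup `N` such that `N / [N, N]` and
`P / N` are torsion-free while `P / [N, N]` has two different elements with equal squares.
-/

namespace Pool.Agent.Results.MP_66ce2c_al.RootsQ2

open Pool.Agent.Helper867.PF
open scoped commutatorElement

/-- A group `P` is parafree if its lower central series has trivial intersection and there is a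
free group with the same lower central quotients. In Mathlib `(⊤ : Subgroup P).lowerCentralSeries n`
is the term usually called the `(n+1)`-st term of the lower central series. -/
def IsParafree (P : Type) [Group P] : Prop :=
  (⨅ n : ℕ, (⊤ : Subgroup P).lowerCentralSeries n) = ⊥ ∧
    ∃ α : Type, ∀ n : ℕ, Nonempty
      ((P ⧸ (⊤ : Subgroup P).lowerCentralSeries n) ≃*
        (FreeGroup α ⧸ (⊤ : Subgroup (FreeGroup α)).lowerCentralSeries n))

theorem result : ∃ (P : Type) (_ : Group P) (N : Subgroup P) (_ : N.Normal),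
    IsParafree P ∧ Group.FG P ∧
    (∀ x : N ⧸ commutator N, IsOfFinOrder x → x = 1) ∧
    (∀ x : P ⧸ N, IsOfFinOrder x → x = 1) ∧
    ∃ x y : P ⧸ ⁅N, N⁆, x ^ 2 = y ^ 2 ∧ x ≠ y := by
  refine ⟨P, inferInstance, Roots.piT.ker, inferInstance, ⟨P_resNil, Fin 3, fun n =>
    ⟨quotEquiv n⟩⟩, P_fg, Roots.ker_torsionFree, Roots.quot_torsionFree, ?_⟩
  let q : P →* P ⧸ ⁅Roots.piT.ker, Roots.piT.ker⁆ :=
    QuotientGroup.mk' ⁅Roots.piT.ker, Roots.piT.ker⁆
  have hr : rel (q pz) (q pu) = 1 := by
    apply Roots.rel_quot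
    intro a b ha hb
    rw [← map_mul, ← map_mul]
    show QuotientGroup.mk (a * b) = QuotientGroup.mk (b * a)
    rw [QuotientGroup.eq]
    have : (a * b)⁻¹ * (b * a) = ⁅b⁻¹, a⁻¹⁆ := by
      rw [commutatorElement_def]; group
    rw [this]
    exact Subgroup.commutator_mem_commutator (Subgroup.inv_mem _ hb) (Subgroup.inv_mem _ ha)
  refine ⟨q pz * q pu * q pz * q pz, q pz * q pu * q pz * q pz * q pu, Roots.squares _ _ hr, ?_⟩
  intro h
  have h1 : q pu = 1 := mul_eq_left.mp h.symm
  have h2 : pu ∈ ⁅Roots.piT.ker, Roots.piT.ker⁆ := (QuotientGroup.eq_one_iff _).mp h1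
  have h3 : pu ∈ Roots.piT.ker := Subgroup.commutator_le_left _ _ h2
  rw [MonoidHom.mem_ker, Roots.piT_pu] at h3
  exact Roots.uT_ne_one h3

end Pool.Agent.Results.MP_66ce2c_al.RootsQ2
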