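import Mathlib
import Pool.Agent.Helper867.PF.Nilp
import Pool.Agent.Helper867.PF.Tors

set_option autoImplicit false

/-!
A finitely generated parafree group `P` with a normal subgroup `N` such that `N / [N, N]` is
torsion-free while `P / [N, N]` has an element of order three.
-/

namespace Pool.Agent.Results.MP_66ce2c_al.TorsionQ1

open Pool.Agent.Helper867.PF
open scoped commutatorElement

/-- A group `P` is parafree if its lower central series has trivial intersection and there is a
free group with the same lower central quotients. In Mathlib `(⊤ : Subgroup P).lowerCentralSeries n`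
is the term usually called the `(n+1)`-st term of the lower central series. -/
def IsParafree (P : Type) [Group P] : Prop :=
  (⨅ n : ℕ, (⊤ : Subgroup P).lowerCentralSeries n) = ⊥ ∧
    ∃ α : Type, ∀ n : ℕ, Nonempty
      ((P ⧸ (⊤ : Subgroup P).lowerCentralSeries n) ≃*
        (FreeGroup α ⧸ (⊤ : Subgroup (FreeGroup α)).lowerCentralSeries n))

theorem result : ∃ (P : Type) (_ : Group P) (N : Subgroup P) (_ : N.Normal),
    IsParafree P ∧ Group.FG P ∧
    (∀ x : N ⧸ commutator N, IsOfFinOrder x → x = 1) ∧
    ∃ y : P ⧸ ⁅N, N⁆, orderOf y = 3 := by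
  refine ⟨P, inferInstance, Tors.pi3.ker, inferInstance, ⟨P_resNil, Fin 3, fun n =>
    ⟨quotEquiv n⟩⟩, P_fg, Tors.ker_torsionFree, QuotientGroup.mk pu, ?_⟩
  have h3 : Fact (Nat.Prime 3) := ⟨Nat.prime_three⟩
  apply orderOf_eq_prime
  · apply Tors.cube_eq_one (QuotientGroup.mk' ⁅Tors.pi3.ker, Tors.pi3.ker⁆)
    intro a b ha hb
    rw [← map_mul, ← map_mul]
    show QuotientGroup.mk (a * b) = QuotientGroup.mk (b * a)
    rw [QuotientGroup.eq]
    have : (a * b)⁻¹ * (b * a) = ⁅b⁻¹, a⁻¹⁆ := by
      rw [commutatorElement_def]; group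
    rw [this]
    exact Subgroup.commutator_mem_commutator (Subgroup.inv_mem _ hb) (Subgroup.inv_mem _ ha)
  · intro h
    rw [QuotientGroup.eq_one_iff] at h
    have h2 : pu ∈ Tors.pi3.ker := Subgroup.commutator_le_left _ _ h
    rw [MonoidHom.mem_ker, Tors.pi3_pu] at h2
    exact absurd h2 (by decide)

end Pool.Agent.Results.MP_66ce2c_al.TorsionQ1
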