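import Mathlib
import Pool.Agent.Helper189.DblT

namespace Pool.Agent.Results.MP_66ce2c_al.UniqueRoots

/-- A group is parafree if it is residually nilpotent and there is a free group with isomorphic
lower central quotients. (Mathlib's series starts with the whole group at index `0`.) -/
def Parafree (P : Type) [Group P] : Prop :=
  (∀ g : P, (∀ n : ℕ, g ∈ (⊤ : Subgroup P).lowerCentralSeries n) → g = 1) ∧
  ∃ ι : Type, ∀ n : ℕ, Nonempty (P ⧸ (⊤ : Subgroup P).lowerCentralSeries n ≃*
    FreeGroup ι ⧸ (⊤ : Subgroup (FreeGroup ι)).lowerCentralSeries n)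

/-- No nontrivial element has finite order. -/
def TorsionFree (G : Type) [Group G] : Prop :=
  ∀ (x : G) (n : ℕ), n ≠ 0 → x ^ n = 1 → x = 1

/-- There are a finitely generated parafree group `P` and a normal subgroup `N` with torsion-free
abelianization and torsion-free quotient `P ⧸ N` such that roots are not unique in
`P ⧸ ⁅N, N⁆`. -/
theorem result : ∃ (P : Type) (_ : Group P) (N : Subgroup P) (_ : N.Normal),
    Group.FG P ∧ Parafree P ∧ TorsionFree (Abelianization N) ∧ TorsionFree (P ⧸ N) ∧
    ∃ (x y : P ⧸ ⁅N, N⁆) (n : ℕ), n ≠ 0 ∧ x ^ n = y ^ n ∧ x ≠ y :=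
  ⟨Helper189.DblP.P, inferInstance, Helper189.DblT.N, inferInstance, Helper189.DblT.fg_P,
    ⟨fun _ => Helper189.DblN.lcs_bot_P, Fin 3, Helper189.DblQ.quotient_iso⟩,
    Helper189.DblT.ab_torsionfree, Helper189.DblT.quot_torsionfree,
    _, _, 6, by norm_num, Helper189.DblT.roots_eq, Helper189.DblT.roots_ne⟩

end Pool.Agent.Results.MP_66ce2c_al.UniqueRoots
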